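import Pool.Agent.Lib.MP_061df2_co.Main

set_option autoImplicit false

namespace Pool.Agent.Results.MP_061df2_co.EvenCycleFactor

open Pool.Agent.OCyc Finset
open scoped Classical

theorem result (k : ℕ) (hk : 4 ≤ k) (he : Even k) (C : Digraph (Fin k))
    (hC1 : ∀ i j, C.Adj i j → (SimpleGraph.cycleGraph k).Adj i j)
    (hC2 : ∀ i j, (SimpleGraph.cycleGraph k).Adj i j → (C.Adj i j ↔ ¬ C.Adj j i))
    (η : ℝ) (hη : 0 < η) :
    ∃ n0 : ℕ, ∀ (V : Type) [Fintype V] (G : Digraph V), (∀ v, ¬ G.Adj v v) →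
      n0 ≤ Fintype.card V → k ∣ Fintype.card V →
      (∀ v, (1 / 2 + η) * (Fintype.card V : ℝ) ≤ ({w | G.Adj v w}.ncard : ℝ) ∧
        (1 / 2 + η) * (Fintype.card V : ℝ) ≤ ({w | G.Adj w v}.ncard : ℝ)) →
      ∃ F : Set (Fin k ↪ V), (∀ f ∈ F, ∀ i j, C.Adj i j → G.Adj (f i) (f j)) ∧
        ∀ v, ∃! f, f ∈ F ∧ v ∈ Set.range f := by
  obtain ⟨K, rfl⟩ : ∃ K, k = K + 2 := ⟨k - 2, by omega⟩
  obtain ⟨n0, h⟩ := perfect hk he.two_dvd (fun i => decide (C.Adj i (i + 1))) η hη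
  refine ⟨n0, fun V _ G _ hn hd hG => ?_⟩
  have h1 := h V G.Adj hn hd (by
    intro v
    constructor
    · convert (hG v).1 using 2
      rw [← Set.ncard_coe_finset]
      congr 1
      ext w
      simp
    · convert (hG v).2 using 2
      rw [← Set.ncard_coe_finset]
      congr 1
      ext w
      simp)
  obtain ⟨t, f, f1, f2, f3⟩ := h1.exists_fun
  have inj : ∀ j, Function.Injective (fun i => f (j, i)) := fun j a b e => by simpa using f1 e
  refine ⟨Set.range (fun j => (⟨_, inj j⟩ : Fin (K + 2) ↪ V)), ?_, ?_⟩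
  · rintro _ ⟨a, rfl⟩ i j hij
    have h2 := hC1 i j hij
    rcases SimpleGraph.cycleGraph_adj.1 h2 with e | e
    · have e' : i = j + 1 := by rw [← e]; abel
      refine (f2 a j i (by rw [e', Fin.val_add]; simp)).2 ?_
      beta_reduce
      rw [← e']
      simpa using (hC2 i j h2).1 hij
    · have e' : j = i + 1 := by rw [← e]; abel
      refine (f2 a i j (by rw [e', Fin.val_add]; simp)).1 ?_
      beta_reduce
      rw [← e']
      simpa using hij
  · intro v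
    obtain ⟨⟨a, i⟩, rfl⟩ := (f3 v).1 (mem_univ v)
    refine ⟨_, ⟨⟨a, rfl⟩, ⟨i, rfl⟩⟩, ?_⟩
    rintro _ ⟨⟨b, rfl⟩, ⟨j, e⟩⟩
    have : b = a := by simpa using congrArg Prod.fst (f1 e)
    rw [this]

end Pool.Agent.Results.MP_061df2_co.EvenCycleFactor
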